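import Pool.Agent.Q247.ML.Alg

/-!
# Minimum-length multiples of nonmonic irreducible polynomials are computable

Let `P ∈ ℤ[X]` be irreducible of degree `n ≥ 1`, `P(0) ≠ 0`, with leading coefficient not `±1`, and
let `Q` be the reversed polynomial, whose constant coefficient is not `±1`.  The key is a `p`-adic
gap principle (`Q247.ML.gap`): if `Q ∣ F`, `Q ∤ A`, the coefficients of `Q` and `A` are at most `H`,
and `X ^ M ∣ F - A`, then `M ≤ n (n + deg A)² H`.  Indeed for a prime `p ∣ Q(0)` one shows that
`p ^ (k + 1)` divides the (nonzero) resultant of `Q` and `A` as soon as `k n < M`, by successive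
division, while the resultant is at most `2 ^ ((n + deg A)² H)`.  Applied to the truncations of a
minimum-length multiple `F` of `Q` with `F(0) ≠ 0` (which are shorter, hence not multiples of `Q`),
this bounds every exponent of `F` in terms of the previous one; there are at most `L(Q)` exponents.
So the degree of `F` is effectively bounded, and so are the coefficients of the cofactor; a finite
search, implemented by a primitive recursive function on coefficient lists, does the rest.
-/

set_option autoImplicit false

open Polynomial

namespace Pool.Agent.Results.MP_e7878a_nt.MinLengthAlgorithm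

/-- There is an algorithm (a total computable function on lists of integer coefficients, in fact a
primitive recursive one) which, given any nonmonic irreducible polynomial `P` of degree at least
`1`, outputs a minimum-length multiple of `P`.  No hypothesis on the zeros of `P` is needed. -/
theorem result : ∃ f : List ℤ → List ℤ, Primrec f ∧ Computable f ∧
    ∀ l : List ℤ, Irreducible (Q247.ML.toPoly l) → 1 ≤ (Q247.ML.toPoly l).natDegree →
      (Q247.ML.toPoly l).leadingCoeff ≠ 1 → (Q247.ML.toPoly l).leadingCoeff ≠ -1 →
      Q247.ML.IsMinLengthMultiple (Q247.ML.toPoly l) (Q247.ML.toPoly (f l)) := by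
  refine ⟨Q247.ML.alg, Q247.ML.prim_alg, Q247.ML.prim_alg.to_comp, ?_⟩
  intro l h1 h2 h3 h4
  refine Q247.ML.alg_correct l h1 (by omega) ?_
  rw [Int.isUnit_iff]
  rintro (h | h)
  · exact h3 h
  · exact h4 h

end Pool.Agent.Results.MP_e7878a_nt.MinLengthAlgorithm
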